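import Pool.Agent.X225.Pp.Ring

/-!
# Chains of finitely generated submodules over the endomorphism ring
-/

namespace Pool.Agent.X225.Pp

open Filter

/-- the endomorphism ring -/
abbrev E := Module.End Rg B

/-- finitely supported sequences as second components -/
def wB (i : ℕ) : Bo := ⟨(fun _ => 0, Pi.single i 1), 0, 0, by
  filter_upwards [eventually_gt_atTop i] with j hj
  exact ⟨by simp, Pi.single_eq_of_ne (by omega) _⟩⟩

/-- the point `w_i` -/
def w (i : ℕ) : B := mkB (wB i) 0

/-- the projection to a block -/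
def dl (i : ℕ) : R0 := ⟨Pi.single i 1, 0, by
  filter_upwards [eventually_gt_atTop i] with j hj
  exact Pi.single_eq_of_ne (by omega) _⟩

/-- first coordinates -/
def cu (i : ℕ) : B →ₗ[ℚ] ℚ where
  toFun z := z.1.1.1 i
  map_add' _ _ := rfl
  map_smul' _ _ := rfl

/-- second coordinates -/
def ct (i : ℕ) : B →ₗ[ℚ] ℚ where
  toFun z := z.1.1.2 i
  map_add' _ _ := rfl
  map_smul' _ _ := rfl

theorem cu_apply (i : ℕ) (z : B) : cu i z = z.1.1.1 i := rfl
theorem ct_apply (i : ℕ) (z : B) : ct i z = z.1.1.2 i := rfl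

theorem cu_tr (i : ℕ) (r : R0) (a h : Module.End ℚ Us) (z : B) :
    cu i (tr r a h • z) = r.1 i * cu i z := rfl

theorem ct_tr (i : ℕ) (r : R0) (a h : Module.End ℚ Us) (z : B) :
    ct i (tr r a h • z) = r.1 i * ct i z := rfl

theorem ct_w (i j : ℕ) : ct j (w i) = if j = i then 1 else 0 := by
  change (Pi.single i (1 : ℚ) : ℕ → ℚ) j = _
  rw [Pi.single_apply]

theorem cu_w (i j : ℕ) : cu j (w i) = 0 := rfl

/-- elements of `E` from a functional on the blocks -/
def ofFun (i : ℕ) (φ : B →ₗ[ℚ] ℚ) (hφ : ∀ (r : R0) (a h : Module.End ℚ Us) (z : B),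
    φ (tr r a h • z) = r.1 i * φ z) : E where
  toFun z := φ z • w i
  map_add' z z' := by rw [map_add, add_smul]
  map_smul' T z := by
    obtain ⟨r, a, h, rfl⟩ := exists_tr T
    rw [hφ, RingHom.id_apply, tr_smul]
    refine Prod.ext (Subtype.ext (Prod.ext ?_ ?_)) ?_
    · funext j
      change (r.1 i * φ z) * 0 = r.1 j * (φ z * 0)
      ring
    · funext j
      change (r.1 i * φ z) * (Pi.single i (1 : ℚ) : ℕ → ℚ) j =
        r.1 j * (φ z * (Pi.single i (1 : ℚ) : ℕ → ℚ) j)
      by_cases hj : j = i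
      · subst hj
        ring
      · rw [Pi.single_eq_of_ne hj]
        ring
    · change (r.1 i * φ z) • (0 : Us) = a (q ((φ z • w i).1)) + h (φ z • (0 : Us))
      have h1 : q ((φ z • w i).1) = 0 := by
        apply Subtype.ext
        funext j
        change φ z * 0 = 0
        ring
      rw [h1, smul_zero, smul_zero, map_zero, map_zero, add_zero]

/-- the idempotent `e_i` -/
def eE (i : ℕ) : E := ofFun i (ct i) (ct_tr i)

/-- the nilpotent `n_i` -/
def nE (i : ℕ) : E := ofFun i (cu i) (cu_tr i)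

theorem eE_apply (i : ℕ) (z : B) : eE i z = ct i z • w i := rfl
theorem nE_apply (i : ℕ) (z : B) : nE i z = cu i z • w i := rfl

/-- scalars -/
def sc (c : ℚ) : E where
  toFun z := c • z
  map_add' := smul_add c
  map_smul' T z := by
    rw [RingHom.id_apply, smul_def', smul_def', map_smul]

theorem sc_apply (c : ℚ) (z : B) : sc c z = c • z := rfl

/-- the quotient map modulo the `w_i` -/
def Q : B →ₗ[ℚ] Us × Us where
  toFun z := (q z.1, z.2)
  map_add' _ _ := rfl
  map_smul' _ _ := rfl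

theorem Q_apply (z : B) : Q z = (q z.1, z.2) := rfl

theorem Q_w (i : ℕ) : Q (w i) = 0 := rfl

theorem cu_eq_of_Q {z z' : B} (h : Q z = Q z') (i : ℕ) : cu i z = cu i z' :=
  congrArg (fun p : Us × Us => p.1.1 i) h

/-- endomorphisms are scalar modulo the `w_i` -/
theorem exists_scalar (f : E) : ∃ c : ℚ, ∀ z, Q (f z) = c • Q z := by
  have h1 : ∀ v : Us, f (mkB 0 v) = mkB 0 (ev 0 ((f (mkB 0 u1)).2) • v) := by
    intro v
    have h2 : mkB 0 v = tr 0 0 (rk (ev 0) v) • mkB 0 u1 := by
      refine Prod.ext (Subtype.ext (Prod.ext ?_ ?_)) ?_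
      · funext i
        change (0 : ℚ) = 0 * 0
        ring
      · funext i
        change (0 : ℚ) = 0 * 0
        ring
      · change v = (0 : Us) + ev 0 u1 • v
        have h3 : ev 0 u1 = 1 := rfl
        rw [h3, one_smul, zero_add]
    rw [h2, map_smul]
    refine Prod.ext (Subtype.ext (Prod.ext ?_ ?_)) ?_
    · funext i
      change (0 : ℚ) * _ = 0
      ring
    · funext i
      change (0 : ℚ) * _ = 0
      ring
    · change (0 : Us) + ev 0 ((f (mkB 0 u1)).2) • v = _
      rw [zero_add]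
      rfl
  refine ⟨ev 0 ((f (mkB 0 u1)).2), fun z => ?_⟩
  generalize ev 0 ((f (mkB 0 u1)).2) = c at h1
  obtain ⟨b, v⟩ := z
  have h2 : ((b, v) : Bo × Us) = mkB b 0 + mkB 0 v := by
    refine Prod.ext ?_ ?_
    · change b = b + 0
      rw [add_zero]
    · change v = 0 + v
      rw [zero_add]
  have h3 : f (mkB b 0 + mkB 0 v) = f (mkB b 0) + f (mkB 0 v) := map_add _ _ _
  have h4 : tr 0 1 0 • mkB b 0 = mkB 0 (q b) := by
    refine Prod.ext (Subtype.ext (Prod.ext ?_ ?_)) ?_
    · funext i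
      change (0 : ℚ) * _ = 0
      ring
    · funext i
      change (0 : ℚ) * _ = 0
      ring
    · change q b + 0 = q b
      rw [add_zero]
  have h5 : q ((f (mkB b 0)).1) = c • q b := by
    have h6 := congrArg f h4
    rw [map_smul, h1] at h6
    have h7 := congrArg (fun z : B => z.2) h6
    change q ((f (mkB b 0)).1) + 0 = c • q b at h7
    rw [add_zero] at h7
    exact h7
  have h6 : (f (mkB b 0)).2 = 0 := by
    have h7 : tr 0 0 1 • mkB b 0 = 0 := by
      refine Prod.ext (Subtype.ext (Prod.ext ?_ ?_)) ?_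
      · funext i
        change (0 : ℚ) * _ = 0
        ring
      · funext i
        change (0 : ℚ) * _ = 0
        ring
      · change (0 : Us) + 0 = 0
        rw [add_zero]
    have h8 := congrArg f h7
    rw [map_smul, map_zero] at h8
    have h9 := congrArg (fun z : B => z.2) h8
    change (0 : Us) + (f (mkB b 0)).2 = 0 at h9
    rw [zero_add] at h9
    exact h9
  change Q (f ((b, v) : Bo × Us)) = _
  rw [h2, h3, h1 v, map_add, map_add]
  refine Prod.ext ?_ ?_
  · change q ((f (mkB b 0)).1) + (0 : Us) = c • (q b + 0)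
    rw [add_zero, add_zero, h5]
  · change (f (mkB b 0)).2 + c • v = c • (0 + v)
    rw [h6, zero_add, zero_add]

/-- endomorphisms preserve supports -/
theorem supp (f : E) (i : ℕ) (z : B) (h1 : cu i z = 0) (h2 : ct i z = 0) :
    cu i (f z) = 0 ∧ ct i (f z) = 0 := by
  have h3 : tr (dl i) 0 0 • z = 0 := by
    refine Prod.ext (Subtype.ext (Prod.ext ?_ ?_)) ?_
    · funext j
      change (Pi.single i (1 : ℚ) : ℕ → ℚ) j * z.1.1.1 j = 0
      by_cases hj : j = i
      · subst hj
        rw [← cu_apply, h1, mul_zero]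
      · rw [Pi.single_eq_of_ne hj, zero_mul]
    · funext j
      change (Pi.single i (1 : ℚ) : ℕ → ℚ) j * z.1.1.2 j = 0
      by_cases hj : j = i
      · subst hj
        rw [← ct_apply, h2, mul_zero]
      · rw [Pi.single_eq_of_ne hj, zero_mul]
    · change (0 : Us) + 0 = 0
      rw [add_zero]
  have h4 := congrArg f h3
  rw [map_smul, map_zero] at h4
  have h5 := congrArg (cu i) h4
  have h6 := congrArg (ct i) h4
  rw [cu_tr, map_zero] at h5
  rw [ct_tr, map_zero] at h6
  have h7 : (dl i).1 i = 1 := Pi.single_eq_same _ _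
  rw [h7, one_mul] at h5 h6
  exact ⟨h5, h6⟩

/-- the image modulo the `w_i` -/
def qn (N : Submodule E B) : Submodule ℚ (Us × Us) where
  carrier := {p | ∃ z ∈ N, Q z = p}
  zero_mem' := ⟨0, N.zero_mem, map_zero Q⟩
  add_mem' := by
    rintro _ _ ⟨z, hz, rfl⟩ ⟨z', hz', rfl⟩
    exact ⟨z + z', N.add_mem hz hz', map_add Q _ _⟩
  smul_mem' := by
    rintro c _ ⟨z, hz, rfl⟩
    exact ⟨sc c • z, N.smul_mem _ hz, map_smul Q c z⟩

theorem qn_mono {N N' : Submodule E B} (h : N ≤ N') : qn N ≤ qn N' := by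
  rintro _ ⟨z, hz, rfl⟩
  exact ⟨z, h hz, rfl⟩

theorem qn_fin (N : Submodule E B) (h : N.FG) : FiniteDimensional ℚ (qn N) := by
  obtain ⟨s, hs⟩ := h
  have h1 : qn N ≤ Submodule.span ℚ (Q '' (s : Set B)) := by
    rintro _ ⟨z, hz, rfl⟩
    rw [← hs] at hz
    induction hz using Submodule.span_induction with
    | mem z hz => exact Submodule.subset_span ⟨z, hz, rfl⟩
    | zero =>
      rw [map_zero]
      exact Submodule.zero_mem _
    | add z z' _ _ h1 h2 =>
      rw [map_add]
      exact Submodule.add_mem _ h1 h2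
    | smul f z _ h1 =>
      obtain ⟨c, hc⟩ := exists_scalar f
      change Q (f z) ∈ _
      rw [hc]
      exact Submodule.smul_mem _ _ h1
  have _ : FiniteDimensional ℚ (Submodule.span ℚ (Q '' (s : Set B))) :=
    FiniteDimensional.span_of_finite ℚ (s.finite_toSet.image _)
  exact Submodule.finiteDimensional_of_le h1

theorem fin_bo (b : B) (hb : {i | cu i b = 0}.Infinite) : ∃ n, ∀ i ≥ n, cu i b = 0 ∧ ct i b = 0 := by
  obtain ⟨α, β, h⟩ := b.1.2
  obtain ⟨n, hn⟩ := eventually_atTop.1 h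
  obtain ⟨i, hi, hin⟩ := hb.exists_gt n
  obtain ⟨j, hj, hjn⟩ := hb.exists_gt i
  have h1 := (hn i hin.le).1
  have h2 := (hn j (hin.trans hjn).le).1
  have hi' : b.1.1.1 i = 0 := hi
  have hj' : b.1.1.1 j = 0 := hj
  rw [hi'] at h1
  rw [hj'] at h2
  have h3 : β * ((j : ℚ) - i) = 0 := by linarith
  have h4 : (j : ℚ) - i ≠ 0 := by
    have : (i : ℚ) < j := by exact_mod_cast hjn
    linarith
  have h5 : β = 0 := by
    rcases mul_eq_zero.1 h3 with h | h
    · exact h
    · exact absurd h h4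
  rw [h5, zero_mul, add_zero] at h1
  refine ⟨n, fun k hk => ⟨?_, ?_⟩⟩
  · have h6 := (hn k hk).1
    rw [← h1, h5, zero_mul, add_zero] at h6
    exact h6
  · have h6 := (hn k hk).2
    rw [h5] at h6
    exact h6

theorem eq_sum (z : B) (h : Q z = 0) : ∃ S : Finset ℕ, z = ∑ i ∈ S, ct i z • w i := by
  have h0 : ∀ i, cu i z = 0 := fun i => cu_eq_of_Q (z' := 0) (h.trans (map_zero Q).symm) i
  obtain ⟨n, hn⟩ := fin_bo z (by
    have : {i | cu i z = 0} = Set.univ := Set.eq_univ_of_forall h0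
    rw [this]
    exact Set.infinite_univ)
  refine ⟨Finset.range n, ?_⟩
  refine Prod.ext (Subtype.ext (Prod.ext ?_ ?_)) ?_
  · funext j
    change cu j z = cu j (∑ i ∈ Finset.range n, ct i z • w i)
    rw [h0, map_sum]
    symm
    apply Finset.sum_eq_zero
    intro i _
    rw [map_smul, cu_w, smul_zero]
  · funext j
    change ct j z = ct j (∑ i ∈ Finset.range n, ct i z • w i)
    rw [map_sum]
    by_cases hj : j < n
    · rw [Finset.sum_eq_single j]
      · rw [map_smul, ct_w, if_pos rfl, smul_eq_mul, mul_one]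
      · intro i _ hi
        rw [map_smul, ct_w, if_neg (Ne.symm hi), smul_zero]
      · intro h
        exact absurd (Finset.mem_range.2 hj) h
    · rw [(hn j (by omega)).2]
      symm
      apply Finset.sum_eq_zero
      intro i hi
      rw [Finset.mem_range] at hi
      rw [map_smul, ct_w, if_neg (by omega), smul_zero]
  · have h1 : z.2 = 0 := congrArg Prod.snd h
    rw [h1]
    let s2 : B →ₗ[ℚ] Us := ⟨⟨fun z => z.2, fun _ _ => rfl⟩, fun _ _ => rfl⟩
    change 0 = s2 (∑ i ∈ Finset.range n, ct i z • w i)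
    rw [map_sum]
    symm
    apply Finset.sum_eq_zero
    intro i _
    rw [map_smul]
    change ct i z • (0 : Us) = 0
    rw [smul_zero]

theorem w_mem {N : Submodule E B} {z : B} (hz : z ∈ N) {i : ℕ} (h : cu i z ≠ 0) : w i ∈ N := by
  have h1 : nE i • z ∈ N := N.smul_mem _ hz
  have h2 : sc (cu i z)⁻¹ • (nE i • z) ∈ N := N.smul_mem _ h1
  have h3 : sc (cu i z)⁻¹ • (nE i • z) = w i := by
    change (cu i z)⁻¹ • (cu i z • w i) = w i
    rw [smul_smul, inv_mul_cancel₀ h, one_smul]
  rwa [h3] at h2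

theorem w_mem' {N : Submodule E B} {z : B} (hz : z ∈ N) {i : ℕ} (h : ct i z ≠ 0) : w i ∈ N := by
  have h1 : eE i • z ∈ N := N.smul_mem _ hz
  have h2 : sc (ct i z)⁻¹ • (eE i • z) ∈ N := N.smul_mem _ h1
  have h3 : sc (ct i z)⁻¹ • (eE i • z) = w i := by
    change (ct i z)⁻¹ • (ct i z • w i) = w i
    rw [smul_smul, inv_mul_cancel₀ h, one_smul]
  rwa [h3] at h2

/-- **Descending chains of finitely generated submodules stabilize.** -/
theorem chain (N : ℕ → Submodule E B) (hN : ∀ k, N (k + 1) ≤ N k) (hfg : ∀ k, (N k).FG) :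
    ∃ K, ∀ k ≥ K, N k = N K := by
  classical
  have hanti : Antitone N := antitone_nat_of_succ_le hN
  -- step 1
  obtain ⟨k0, hk0⟩ : ∃ k0, ∀ k, Module.finrank ℚ (qn (N k0)) ≤ Module.finrank ℚ (qn (N k)) :=
    ⟨_, fun k => Function.argmin_le (fun k => Module.finrank ℚ (qn (N k))) k⟩
  have hq : ∀ k ≥ k0, qn (N k) = qn (N k0) := by
    intro k hk
    have _ := qn_fin (N k0) (hfg k0)
    exact Submodule.eq_of_le_of_finrank_le (qn_mono (hanti hk)) (hk0 k)
  -- step 2
  obtain ⟨F, hF⟩ : ∃ F : Finset ℕ, ∀ k ≥ k0, ∀ i ∉ F, (w i ∈ N k ↔ w i ∈ N k0) := by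
    by_cases hA : ∃ z ∈ N k0, {i | cu i z = 0}.Finite
    · obtain ⟨z, hz, hfin⟩ := hA
      refine ⟨hfin.toFinset, fun k hk i hi => ?_⟩
      have hi' : cu i z ≠ 0 := by
        intro h
        exact hi (hfin.mem_toFinset.2 h)
      have h1 : Q z ∈ qn (N k) := by
        rw [hq k hk]
        exact ⟨z, hz, rfl⟩
      obtain ⟨z', hz', hQ⟩ := h1
      have h2 : cu i z' ≠ 0 := by rwa [cu_eq_of_Q hQ]
      exact ⟨fun _ => w_mem hz hi', fun _ => w_mem hz' h2⟩
    · push Not at hA
      obtain ⟨s, hs⟩ := hfg k0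
      have h1 : ∀ z ∈ s, ∃ n, ∀ i ≥ n, cu i z = 0 ∧ ct i z = 0 := by
        intro z hz
        exact fin_bo z (hA z (by rw [← hs]; exact Submodule.subset_span hz))
      choose! n hn using h1
      refine ⟨Finset.range (s.sup n), fun k hk i hi => ?_⟩
      have hi' : s.sup n ≤ i := by
        rw [Finset.mem_range, not_lt] at hi
        exact hi
      have h2 : ∀ z ∈ N k0, cu i z = 0 ∧ ct i z = 0 := by
        intro z hz
        rw [← hs] at hz
        induction hz using Submodule.span_induction with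
        | mem z hz => exact hn z hz i ((Finset.le_sup hz).trans hi')
        | zero => exact ⟨map_zero _, map_zero _⟩
        | add z z' _ _ h1 h2 =>
          rw [map_add, map_add, h1.1, h1.2, h2.1, h2.2]
          exact ⟨add_zero _, add_zero _⟩
        | smul f z _ h1 => exact supp f i z h1.1 h1.2
      have h3 : w i ∉ N k0 := by
        intro h
        have h4 := (h2 _ h).2
        rw [ct_w, if_pos rfl] at h4
        exact one_ne_zero h4
      exact ⟨fun h => absurd (hanti hk h) h3, fun h => absurd h h3⟩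
  -- step 3
  obtain ⟨j1, hj1⟩ : ∃ j1, ∀ j, (F.filter fun i => w i ∈ N (k0 + j1)).card ≤
      (F.filter fun i => w i ∈ N (k0 + j)).card :=
    ⟨_, fun j => Function.argmin_le (fun j => (F.filter fun i => w i ∈ N (k0 + j)).card) j⟩
  have hT : ∀ k ≥ k0 + j1, ∀ i, w i ∈ N (k0 + j1) → w i ∈ N k := by
    intro k hk i hi
    by_cases hiF : i ∈ F
    · have h1 : (F.filter fun i => w i ∈ N k) ⊆ F.filter fun i => w i ∈ N (k0 + j1) := by
        intro i hi
        rw [Finset.mem_filter] at hi ⊢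
        exact ⟨hi.1, hanti hk hi.2⟩
      have h2 := hj1 (k - k0)
      rw [show k0 + (k - k0) = k by omega] at h2
      have h3 := Finset.eq_of_subset_of_card_le h1 h2
      have h4 : i ∈ F.filter fun i => w i ∈ N k := by
        rw [h3]
        exact Finset.mem_filter.2 ⟨hiF, hi⟩
      exact (Finset.mem_filter.1 h4).2
    · rw [hF k (by omega) i hiF, ← hF (k0 + j1) (by omega) i hiF]
      exact hi
  refine ⟨k0 + j1, fun k hk => le_antisymm (hanti hk) ?_⟩
  intro z hz
  have h1 : Q z ∈ qn (N k) := by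
    rw [hq k (by omega), ← hq (k0 + j1) (by omega)]
    exact ⟨z, hz, rfl⟩
  obtain ⟨z', hz', hQ⟩ := h1
  have hd : z - z' ∈ N (k0 + j1) := Submodule.sub_mem _ hz (hanti hk hz')
  have hQd : Q (z - z') = 0 := by
    rw [map_sub, hQ, sub_self]
  obtain ⟨S, hS⟩ := eq_sum (z - z') hQd
  have h2 : z - z' ∈ N k := by
    rw [hS]
    apply Submodule.sum_mem
    intro i _
    by_cases hi : ct i (z - z') = 0
    · rw [hi, zero_smul]
      exact Submodule.zero_mem _
    · exact (N k).smul_mem (sc (ct i (z - z'))) (hT k hk i (w_mem' hd hi))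
  have h3 := Submodule.add_mem _ h2 hz'
  rwa [sub_add_cancel] at h3

end Pool.Agent.X225.Pp
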