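import Mathlib

/-!
# Positive primitive formulas
-/

universe u v

namespace Pool.Agent.X225.Pp

/-- An `n`-ary positive primitive formula over `R`: `∃ y, A y = C x` for matrices `A`, `C` with
entries in `R`, where `x = (x_1, ..., x_n)` are the free variables. -/
structure PP (R : Type u) (n : ℕ) where
  /-- the number of equations -/
  l : ℕ
  /-- the number of quantified variables -/
  m : ℕ
  /-- the matrix of coefficients of the quantified variables -/
  A : Matrix (Fin l) (Fin m) R
  /-- the matrix of coefficients of the free variables -/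
  C : Matrix (Fin l) (Fin n) R

variable {R : Type} [Ring R] {n : ℕ}

/-- the tuple `x` of elements of the module `M` satisfies the formula -/
def PP.Holds (φ : PP R n) (M : Type) [AddCommGroup M] [Module R M] (x : Fin n → M) : Prop :=
  ∃ y : Fin φ.m → M, ∀ i, ∑ j, φ.A i j • y j = ∑ j, φ.C i j • x j

/-- `φ ≤ ψ`: `φ` implies `ψ` in all modules -/
def PP.Le (φ ψ : PP R n) : Prop :=
  ∀ (M : Type) [AddCommGroup M] [Module R M] (x : Fin n → M), φ.Holds M x → ψ.Holds M x

/-- the formula `φ` generates the pp type of the tuple `a` in the module `M` -/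
def PP.Generates (φ : PP R n) (M : Type) [AddCommGroup M] [Module R M] (a : Fin n → M) : Prop :=
  φ.Holds M a ∧ ∀ ψ : PP R n, ψ.Holds M a → φ.Le ψ

/-- the module `M` is in `add 𝒜`: it is a direct summand of a finite direct sum of members of `𝒜` -/
def InAdd (𝒜 : Set (ModuleCat.{0} R)) (M : ModuleCat.{0} R) : Prop :=
  ∃ (m : ℕ) (A : Fin m → ModuleCat.{0} R), (∀ j, A j ∈ 𝒜) ∧
    ∃ (i : M →ₗ[R] (∀ j, A j)) (p : (∀ j, A j) →ₗ[R] M), p ∘ₗ i = LinearMap.id

/-- the `n`-ary formulas in `Γ_ℬ` for `ℬ = add 𝒜`: those that generate the pp type of some `n`-tuple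
in some module from `ℬ` -/
def Gam (𝒜 : Set (ModuleCat.{0} R)) (n : ℕ) : Set (PP R n) :=
  {φ | ∃ M : ModuleCat.{0} R, InAdd 𝒜 M ∧ ∃ a : Fin n → M, φ.Generates M a}

/-- the descending chain condition for the `n`-ary formulas of `Γ_ℬ`, `ℬ = add 𝒜` -/
def Dcc (𝒜 : Set (ModuleCat.{0} R)) (n : ℕ) : Prop :=
  ∀ φ : ℕ → PP R n, (∀ k, φ k ∈ Gam 𝒜 n) → (∀ k, (φ (k + 1)).Le (φ k)) →
    ∃ K, ∀ k ≥ K, (φ k).Le (φ (k + 1))

theorem PP.Holds.map {φ : PP R n} {M N : Type} [AddCommGroup M] [Module R M] [AddCommGroup N]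
    [Module R N] {x : Fin n → M} (h : φ.Holds M x) (f : M →ₗ[R] N) :
    φ.Holds N fun i => f (x i) := by
  obtain ⟨y, hy⟩ := h
  refine ⟨fun j => f (y j), fun i => ?_⟩
  have h1 := congrArg f (hy i)
  rw [map_sum, map_sum] at h1
  simp only [map_smul] at h1
  exact h1

/-- the formula of a tuple in a finitely presented module -/
theorem exists_pp (M : Type) [AddCommGroup M] [Module R M] [Module.FinitePresentation R M]
    (a : Fin n → M) : ∃ θ : PP R n, ∀ (N : Type) [AddCommGroup N] [Module R N] (b : Fin n → N),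
      θ.Holds N b ↔ ∃ h : M →ₗ[R] N, ∀ i, h (a i) = b i := by
  classical
  obtain ⟨n0, m0, f, g, hf, hfg⟩ := Module.FinitePresentation.exists_fin' R M
  choose α hα using fun i => hf (a i)
  refine ⟨⟨n + m0, n0, Matrix.of (Fin.append α fun r => g (Pi.single r 1)),
    Matrix.of (Fin.append (fun i => Pi.single i 1) fun _ => 0)⟩, ?_⟩
  intro N _ _ b
  constructor
  · rintro ⟨y, hy⟩
    change Fin n0 → N at y
    change ∀ i : Fin (n + m0), _ at hy
    let h0 : (Fin n0 → R) →ₗ[R] N := Fintype.linearCombination R y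
    have h0a : ∀ v : Fin n0 → R, h0 v = ∑ j, v j • y j := fun v => Fintype.linearCombination_apply _ _ _
    have h1 : ∀ i, h0 (α i) = b i := by
      intro i
      have h2 := hy (Fin.castAdd m0 i)
      simp only [Matrix.of_apply, Fin.append_left] at h2
      rw [h0a, h2]
      simp [Pi.single_apply]
    have h2 : ∀ r, h0 (g (Pi.single r 1)) = 0 := by
      intro r
      have h2 := hy (Fin.natAdd n r)
      simp only [Matrix.of_apply, Fin.append_right] at h2
      rw [h0a, h2]
      simp
    have h3 : h0 ∘ₗ g = 0 := by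
      apply LinearMap.pi_ext'
      intro r
      ext
      simpa using h2 r
    have h4 : LinearMap.ker f ≤ LinearMap.ker h0 := by
      intro x hx
      obtain ⟨z, rfl⟩ := (hfg x).1 (LinearMap.mem_ker.1 hx)
      rw [LinearMap.mem_ker]
      exact LinearMap.congr_fun h3 z
    refine ⟨(LinearMap.ker f).liftQ h0 h4 ∘ₗ (f.quotKerEquivOfSurjective hf).symm.toLinearMap,
      fun i => ?_⟩
    rw [← hα i, LinearMap.comp_apply]
    have h5 : (f.quotKerEquivOfSurjective hf).symm (f (α i)) = (LinearMap.ker f).mkQ (α i) := by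
      rw [LinearEquiv.symm_apply_eq]
      rfl
    change (LinearMap.ker f).liftQ h0 h4 ((f.quotKerEquivOfSurjective hf).symm (f (α i))) = _
    rw [h5]
    exact h1 i
  · rintro ⟨h, hh⟩
    have h1 : ∀ v : Fin n0 → R, ∑ j, v j • h (f (Pi.single j 1)) = h (f v) := by
      intro v
      simp only [← map_smul, ← map_sum]
      congr 2
      funext k
      simp [Finset.sum_apply, Pi.single_apply]
    refine ⟨fun j => h (f (Pi.single j 1)), fun i => ?_⟩
    change Fin (n + m0) at i
    refine Fin.addCases (fun i => ?_) (fun r => ?_) i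
    · simp only [Matrix.of_apply, Fin.append_left]
      rw [h1, hα, hh]
      simp [Pi.single_apply]
    · simp only [Matrix.of_apply, Fin.append_right]
      rw [h1, (hfg _).2 ⟨_, rfl⟩]
      simp

end Pool.Agent.X225.Pp
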