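import Mathlib

/-!
# The ring and the module
-/

namespace Pool.Agent.X225.Pp

open Filter

/-- sequences -/
abbrev Sq := ℕ → ℚ

/-- eventually affine sequences -/
def Us : Submodule ℚ Sq where
  carrier := {u | ∃ α β : ℚ, ∀ᶠ i in atTop, u i = α + β * i}
  zero_mem' := ⟨0, 0, Eventually.of_forall fun i => by simp⟩
  add_mem' := by
    rintro u v ⟨α, β, h⟩ ⟨α', β', h'⟩
    refine ⟨α + α', β + β', (h.and h').mono fun i hi => ?_⟩
    rw [Pi.add_apply, hi.1, hi.2]
    ring
  smul_mem' := by
    rintro c u ⟨α, β, h⟩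
    refine ⟨c * α, c * β, h.mono fun i hi => ?_⟩
    rw [Pi.smul_apply, hi, smul_eq_mul]
    ring

/-- pairs of sequences, eventually of the form `(α + β i, β)` -/
def Bo : Submodule ℚ (Sq × Sq) where
  carrier := {p | ∃ α β : ℚ, ∀ᶠ i in atTop, p.1 i = α + β * i ∧ p.2 i = β}
  zero_mem' := ⟨0, 0, Eventually.of_forall fun i => by simp⟩
  add_mem' := by
    rintro u v ⟨α, β, h⟩ ⟨α', β', h'⟩
    refine ⟨α + α', β + β', (h.and h').mono fun i hi => ⟨?_, ?_⟩⟩
    · rw [Prod.fst_add, Pi.add_apply, hi.1.1, hi.2.1]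
      ring
    · rw [Prod.snd_add, Pi.add_apply, hi.1.2, hi.2.2]
  smul_mem' := by
    rintro c u ⟨α, β, h⟩
    refine ⟨c * α, c * β, h.mono fun i hi => ⟨?_, ?_⟩⟩
    · rw [Prod.smul_fst, Pi.smul_apply, hi.1, smul_eq_mul]
      ring
    · rw [Prod.smul_snd, Pi.smul_apply, hi.2, smul_eq_mul]

/-- eventually constant sequences -/
def R0 : Subring Sq where
  carrier := {r | ∃ γ : ℚ, ∀ᶠ i in atTop, r i = γ}
  zero_mem' := ⟨0, Eventually.of_forall fun i => rfl⟩
  one_mem' := ⟨1, Eventually.of_forall fun i => rfl⟩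
  add_mem' := by
    rintro u v ⟨α, h⟩ ⟨α', h'⟩
    exact ⟨α + α', (h.and h').mono fun i hi => by rw [Pi.add_apply, hi.1, hi.2]⟩
  mul_mem' := by
    rintro u v ⟨α, h⟩ ⟨α', h'⟩
    exact ⟨α * α', (h.and h').mono fun i hi => by rw [Pi.mul_apply, hi.1, hi.2]⟩
  neg_mem' := by
    rintro u ⟨α, h⟩
    exact ⟨-α, h.mono fun i hi => by rw [Pi.neg_apply, hi]⟩

/-- multiplication on pairs -/
def actB (r : R0) : Bo →ₗ[ℚ] Bo where
  toFun b := ⟨(r.1 * b.1.1, r.1 * b.1.2), by
    obtain ⟨γ, hγ⟩ := r.2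
    obtain ⟨α, β, h⟩ := b.2
    refine ⟨γ * α, γ * β, (h.and hγ).mono fun i hi => ⟨?_, ?_⟩⟩
    · change r.1 i * b.1.1 i = _
      rw [hi.1.1, hi.2]
      ring
    · change r.1 i * b.1.2 i = _
      rw [hi.1.2, hi.2]⟩
  map_add' b b' := Subtype.ext (Prod.ext (mul_add _ _ _) (mul_add _ _ _))
  map_smul' c b := Subtype.ext (Prod.ext (mul_smul_comm _ _ _) (mul_smul_comm _ _ _))

/-- multiplication on sequences -/
def actU (r : R0) : Us →ₗ[ℚ] Us where
  toFun u := ⟨r.1 * u.1, by
    obtain ⟨γ, hγ⟩ := r.2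
    obtain ⟨α, β, h⟩ := u.2
    refine ⟨γ * α, γ * β, (h.and hγ).mono fun i hi => ?_⟩
    rw [Pi.mul_apply, hi.1, hi.2]
    ring⟩
  map_add' b b' := Subtype.ext (mul_add _ _ _)
  map_smul' c b := Subtype.ext (mul_smul_comm _ _ _)

/-- the first component -/
def q : Bo →ₗ[ℚ] Us where
  toFun b := ⟨b.1.1, by
    obtain ⟨α, β, h⟩ := b.2
    exact ⟨α, β, h.mono fun i hi => hi.1⟩⟩
  map_add' b b' := rfl
  map_smul' c b := rfl

theorem q_actB (r : R0) (b : Bo) : q (actB r b) = actU r (q b) := rfl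

/-- the module, as a vector space -/
def B : Type := Bo × Us

instance : AddCommGroup B := inferInstanceAs (AddCommGroup (Bo × Us))

instance : Module ℚ B := inferInstanceAs (Module ℚ (Bo × Us))

/-- pairs -/
def mkB (b : Bo) (v : Us) : B := (b, v)

/-- the operators -/
def Tm (r : R0) (a h : Module.End ℚ Us) : Module.End ℚ B :=
  (LinearMap.prod (actB r ∘ₗ LinearMap.fst ℚ Bo Us)
    (a ∘ₗ q ∘ₗ LinearMap.fst ℚ Bo Us + h ∘ₗ LinearMap.snd ℚ Bo Us) : Bo × Us →ₗ[ℚ] Bo × Us)

theorem Tm_apply (r : R0) (a h : Module.End ℚ Us) (z : B) :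
    Tm r a h z = ((actB r z.1, a (q z.1) + h z.2) : Bo × Us) := rfl

theorem Tm_mul (r r' : R0) (a a' h h' : Module.End ℚ Us) :
    Tm r a h * Tm r' a' h' = Tm (r * r') (a * actU r' + h * a') (h * h') := by
  apply LinearMap.ext
  intro z
  change Tm r a h (Tm r' a' h' z) = _
  rw [Tm_apply, Tm_apply, Tm_apply]
  refine Prod.ext ?_ ?_
  · exact Subtype.ext (Prod.ext (mul_assoc _ _ _).symm (mul_assoc _ _ _).symm)
  · change a (q (actB r' z.1)) + h (a' (q z.1) + h' z.2) =
      (a (actU r' (q z.1)) + h (a' (q z.1))) + h (h' z.2)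
    rw [map_add, q_actB, add_assoc]

theorem Tm_add (r r' : R0) (a a' h h' : Module.End ℚ Us) :
    Tm r a h + Tm r' a' h' = Tm (r + r') (a + a') (h + h') := by
  apply LinearMap.ext
  intro z
  change Tm r a h z + Tm r' a' h' z = _
  rw [Tm_apply, Tm_apply, Tm_apply]
  refine Prod.ext ?_ ?_
  · exact Subtype.ext (Prod.ext (add_mul _ _ _).symm (add_mul _ _ _).symm)
  · change (a (q z.1) + h z.2) + (a' (q z.1) + h' z.2) =
      (a (q z.1) + a' (q z.1)) + (h z.2 + h' z.2)
    abel

theorem Tm_neg (r : R0) (a h : Module.End ℚ Us) : -Tm r a h = Tm (-r) (-a) (-h) := by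
  apply LinearMap.ext
  intro z
  change -Tm r a h z = _
  rw [Tm_apply, Tm_apply]
  refine Prod.ext ?_ ?_
  · exact Subtype.ext (Prod.ext (neg_mul _ _).symm (neg_mul _ _).symm)
  · change -(a (q z.1) + h z.2) = -a (q z.1) + -h z.2
    abel

theorem Tm_zero : Tm 0 0 0 = 0 := by
  apply LinearMap.ext
  intro z
  rw [Tm_apply]
  refine Prod.ext ?_ ?_
  · exact Subtype.ext (Prod.ext (zero_mul _) (zero_mul _))
  · change (0 : Us) + 0 = 0
    rw [add_zero]

theorem Tm_one : Tm 1 0 1 = 1 := by
  apply LinearMap.ext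
  intro z
  rw [Tm_apply]
  refine Prod.ext ?_ ?_
  · exact Subtype.ext (Prod.ext (one_mul _) (one_mul _))
  · change (0 : Us) + z.2 = z.2
    rw [zero_add]

/-- **The ring.** -/
def Rg : Subring (Module.End ℚ B) where
  carrier := {T | ∃ r a h, T = Tm r a h}
  zero_mem' := ⟨0, 0, 0, Tm_zero.symm⟩
  one_mem' := ⟨1, 0, 1, Tm_one.symm⟩
  add_mem' := by
    rintro _ _ ⟨r, a, h, rfl⟩ ⟨r', a', h', rfl⟩
    exact ⟨_, _, _, Tm_add _ _ _ _ _ _⟩
  mul_mem' := by
    rintro _ _ ⟨r, a, h, rfl⟩ ⟨r', a', h', rfl⟩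
    exact ⟨_, _, _, Tm_mul _ _ _ _ _ _⟩
  neg_mem' := by
    rintro _ ⟨r, a, h, rfl⟩
    exact ⟨_, _, _, Tm_neg _ _ _⟩

instance : Module Rg B := Module.compHom B Rg.subtype

/-- the elements of the ring -/
def tr (r : R0) (a h : Module.End ℚ Us) : Rg := ⟨Tm r a h, r, a, h, rfl⟩

theorem exists_tr (T : Rg) : ∃ r a h, T = tr r a h := by
  obtain ⟨T, r, a, h, rfl⟩ := T
  exact ⟨r, a, h, rfl⟩

theorem smul_def' (T : Rg) (z : B) : T • z = T.1 z := rfl

theorem tr_smul (r : R0) (a h : Module.End ℚ Us) (z : B) :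
    tr r a h • z = ((actB r z.1, a (q z.1) + h z.2) : Bo × Us) := rfl

theorem tr_mul (r r' : R0) (a a' h h' : Module.End ℚ Us) :
    tr r a h * tr r' a' h' = tr (r * r') (a * actU r' + h * a') (h * h') :=
  Subtype.ext (Tm_mul _ _ _ _ _ _)

theorem tr_add (r r' : R0) (a a' h h' : Module.End ℚ Us) :
    tr r a h + tr r' a' h' = tr (r + r') (a + a') (h + h') :=
  Subtype.ext (Tm_add _ _ _ _ _ _)

/-- the constant sequence `1` -/
def u1 : Us := ⟨fun _ => 1, 1, 0, Eventually.of_forall fun i => by simp⟩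

/-- the sequence `i` -/
def uc : Us := ⟨fun i => i, 0, 1, Eventually.of_forall fun i => by simp⟩

/-- the first generator -/
def xB : Bo := ⟨(fun _ => 1, fun _ => 0), 1, 0, Eventually.of_forall fun i => by simp⟩

/-- the second generator -/
def yB : Bo := ⟨(fun i => i, fun _ => 1), 0, 1, Eventually.of_forall fun i => by simp⟩

/-- evaluation -/
def ev (i : ℕ) : Us →ₗ[ℚ] ℚ where
  toFun u := u.1 i
  map_add' _ _ := rfl
  map_smul' _ _ := rfl

/-- the rank one map `u ↦ μ(u) v` -/
def rk (μ : Us →ₗ[ℚ] ℚ) (v : Us) : Module.End ℚ Us := μ.smulRight v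

theorem rk_apply (μ : Us →ₗ[ℚ] ℚ) (v u : Us) : rk μ v u = μ u • v := rfl

/-- the functional with `μ(1) = 0`, `μ(c) = 1` -/
def mu : Us →ₗ[ℚ] ℚ := ev 1 - ev 0

theorem mu_u1 : mu u1 = 0 := by
  change (1 : ℚ) - 1 = 0
  norm_num

theorem mu_uc : mu uc = 1 := by
  change ((1 : ℕ) : ℚ) - ((0 : ℕ) : ℚ) = 1
  norm_num

theorem q_xB : q xB = u1 := rfl
theorem q_yB : q yB = uc := rfl

/-- **The module is finitely presented.** -/
instance fp : Module.FinitePresentation Rg B := by
  let l : Rg × Rg →ₗ[Rg] B :=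
    LinearMap.coprod (LinearMap.toSpanSingleton Rg B (mkB xB 0))
      (LinearMap.toSpanSingleton Rg B (mkB yB 0))
  have hl : ∀ T T' : Rg, l (T, T') = T • mkB xB 0 + T' • mkB yB 0 := fun _ _ => rfl
  refine Module.finitePresentation_of_surjective l ?_ ?_
  · rintro ⟨b, v⟩
    have hr' : b.1.2 ∈ R0 := by
      obtain ⟨α, β, h⟩ := b.2
      exact ⟨β, h.mono fun i hi => hi.2⟩
    have hr : (fun i => b.1.1 i - b.1.2 i * (i : ℚ)) ∈ R0 := by
      obtain ⟨α, β, h⟩ := b.2
      refine ⟨α, h.mono fun i hi => ?_⟩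
      change b.1.1 i - b.1.2 i * (i : ℚ) = α
      rw [hi.1, hi.2]
      ring
    refine ⟨(tr ⟨_, hr⟩ (rk (ev 0) v) 0, tr ⟨_, hr'⟩ 0 0), ?_⟩
    rw [hl, tr_smul, tr_smul]
    refine Prod.ext (Subtype.ext (Prod.ext ?_ ?_)) ?_
    · funext i
      change (b.1.1 i - b.1.2 i * (i : ℚ)) * 1 + b.1.2 i * (i : ℚ) = b.1.1 i
      ring
    · funext i
      change (b.1.1 i - b.1.2 i * (i : ℚ)) * 0 + b.1.2 i * 1 = b.1.2 i
      ring
    · change (rk (ev 0) v (q xB) + 0) + ((0 : Us) + 0) = v
      rw [rk_apply, q_xB]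
      have h1 : ev 0 u1 = 1 := rfl
      rw [h1, one_smul, add_zero, add_zero, add_zero]
  · let g1 : Rg × Rg := (tr 0 0 1, 0)
    let g2 : Rg × Rg := (0, tr 0 0 1)
    let g3 : Rg × Rg := (tr 0 1 0, tr 0 (-rk mu u1) 0)
    let g4 : Rg × Rg := (0, tr 0 (1 - rk mu uc) 0)
    have hker : LinearMap.ker l = Submodule.span Rg {g1, g2, g3, g4} := by
      apply le_antisymm
      · rintro ⟨T, T'⟩ hT
        rw [LinearMap.mem_ker, hl] at hT
        obtain ⟨r, a, h, rfl⟩ := exists_tr T
        obtain ⟨r', a', h', rfl⟩ := exists_tr T'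
        rw [tr_smul, tr_smul] at hT
        have h1 := congrArg Prod.fst hT
        have h2 := congrArg Prod.snd hT
        have h3 : ∀ i, r'.1 i = 0 := by
          intro i
          have h4 := congrArg (fun b : Bo => b.1.2 i) h1
          change r.1 i * 0 + r'.1 i * 1 = 0 at h4
          simpa using h4
        have h4 : ∀ i, r.1 i = 0 := by
          intro i
          have h4 := congrArg (fun b : Bo => b.1.1 i) h1
          change r.1 i * 1 + r'.1 i * (i : ℚ) = 0 at h4
          rw [h3 i] at h4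
          simpa using h4
        have hr : r = 0 := Subtype.ext (funext h4)
        have hr' : r' = 0 := Subtype.ext (funext h3)
        subst hr hr'
        have h5 : a u1 + a' uc = 0 := by
          change (a (q xB) + h 0) + (a' (q yB) + h' 0) = 0 at h2
          rw [map_zero, map_zero, add_zero, add_zero] at h2
          exact h2
        have h6 : ((tr 0 a h, tr 0 a' h') : Rg × Rg) =
            tr 0 0 h • g1 + tr 0 0 h' • g2 + tr 0 0 a • g3 + tr 0 0 a' • g4 := by
          refine Prod.ext (Subtype.ext ?_) (Subtype.ext ?_)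
          · apply LinearMap.ext
            intro z
            refine Prod.ext (Subtype.ext (Prod.ext ?_ ?_)) ?_
            · funext i
              change (0 : ℚ) * _ = 0 * (0 * _) + 0 * 0 + 0 * (0 * _) + 0 * 0
              ring
            · funext i
              change (0 : ℚ) * _ = 0 * (0 * _) + 0 * 0 + 0 * (0 * _) + 0 * 0
              ring
            · change a (q z.1) + h z.2 =
                ((0 : Us) + h (0 + z.2)) + ((0 : Us) + h' 0) + ((0 : Us) + a (q z.1 + 0)) +
                  ((0 : Us) + a' 0)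
              simp only [map_zero, zero_add, add_zero]
              exact add_comm _ _
          · apply LinearMap.ext
            intro z
            refine Prod.ext (Subtype.ext (Prod.ext ?_ ?_)) ?_
            · funext i
              change (0 : ℚ) * _ = 0 * 0 + 0 * (0 * _) + 0 * (0 * _) + 0 * (0 * _)
              ring
            · funext i
              change (0 : ℚ) * _ = 0 * 0 + 0 * (0 * _) + 0 * (0 * _) + 0 * (0 * _)
              ring
            · change a' (q z.1) + h' z.2 =
                ((0 : Us) + h 0) + ((0 : Us) + h' (0 + z.2)) +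
                  ((0 : Us) + a (-(mu (q z.1) • u1) + 0)) +
                  ((0 : Us) + a' ((q z.1 - mu (q z.1) • uc) + 0))
              have h7 : a u1 = -a' uc := eq_neg_of_add_eq_zero_left h5
              rw [map_zero, zero_add, zero_add, zero_add, zero_add, zero_add, add_zero, add_zero,
                map_neg, map_smul, map_sub, map_smul, h7, smul_neg, neg_neg]
              abel
        rw [h6]
        have hg : ∀ g ∈ ({g1, g2, g3, g4} : Set (Rg × Rg)), ∀ T : Rg,
            T • g ∈ Submodule.span Rg ({g1, g2, g3, g4} : Set (Rg × Rg)) :=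
          fun g hg T => Submodule.smul_mem _ _ (Submodule.subset_span hg)
        exact Submodule.add_mem _ (Submodule.add_mem _ (Submodule.add_mem _
          (hg g1 (by simp) _) (hg g2 (by simp) _)) (hg g3 (by simp) _)) (hg g4 (by simp) _)
      · rw [Submodule.span_le]
        rintro g hg
        rw [SetLike.mem_coe, LinearMap.mem_ker]
        rcases hg with rfl | rfl | rfl | rfl
        · change l (tr 0 0 1, 0) = 0
          rw [hl]
          refine Prod.ext (Subtype.ext (Prod.ext ?_ ?_)) ?_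
          · funext i
            change (0 : ℚ) * _ + 0 = 0
            ring
          · funext i
            change (0 : ℚ) * _ + 0 = 0
            ring
          · change ((0 : Us) + 0) + 0 = 0
            simp
        · change l (0, tr 0 0 1) = 0
          rw [hl]
          refine Prod.ext (Subtype.ext (Prod.ext ?_ ?_)) ?_
          · funext i
            change 0 + (0 : ℚ) * _ = 0
            ring
          · funext i
            change 0 + (0 : ℚ) * _ = 0
            ring
          · change (0 : Us) + (0 + 0) = 0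
            simp
        · change l (tr 0 1 0, tr 0 (-rk mu u1) 0) = 0
          rw [hl]
          refine Prod.ext (Subtype.ext (Prod.ext ?_ ?_)) ?_
          · funext i
            change (0 : ℚ) * _ + 0 * _ = 0
            ring
          · funext i
            change (0 : ℚ) * _ + 0 * _ = 0
            ring
          · change (u1 + 0) + (-(mu uc • u1) + 0) = 0
            rw [mu_uc, one_smul, add_zero, add_zero, add_neg_cancel]
        · change l (0, tr 0 (1 - rk mu uc) 0) = 0
          rw [hl]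
          refine Prod.ext (Subtype.ext (Prod.ext ?_ ?_)) ?_
          · funext i
            change 0 + (0 : ℚ) * _ = 0
            ring
          · funext i
            change 0 + (0 : ℚ) * _ = 0
            ring
          · change (0 : Us) + ((uc - mu uc • uc) + 0) = 0
            rw [mu_uc, one_smul, sub_self, add_zero, add_zero]
    rw [hker]
    exact Submodule.fg_span (Set.toFinite _)

end Pool.Agent.X225.Pp
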